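import Pool.Agent.Y382.MX.Gen

/-!
Mixed identities (project MX): the words, for the affine group of a finite field.
-/

set_option autoImplicit false

namespace Pool.Agent.Y382.MX

open Pool.Agent.Helper60.Mixed Gm

/-- an element of multiplicative order `ℓ` in the field -/
class Root (ℓ : ℕ) (F : Type) [Field F] where
  lam : F
  ord : orderOf lam = ℓ

section mu

variable {ℓ : ℕ} [Fact ℓ.Prime] {F : Type} [Field F] [Root ℓ F]

/-- the powers of the root -/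
def mu (k : ZMod ℓ) : F := Root.lam ℓ ^ k.val

theorem mu_zero : (mu (0 : ZMod ℓ) : F) = 1 := by simp [mu]

theorem mu_add (a b : ZMod ℓ) : (mu (a + b) : F) = mu a * mu b := by
  unfold mu
  rw [ZMod.val_add, ← pow_add]
  have h : (Root.lam ℓ : F) ^ ((a.val + b.val) % orderOf (Root.lam ℓ : F)) =
      (Root.lam ℓ : F) ^ (a.val + b.val) := pow_mod_orderOf _ _
  rw [Root.ord] at h
  exact h

theorem mu_eq_one {k : ZMod ℓ} (h : (mu k : F) = 1) : k = 0 := by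
  unfold mu at h
  have h1 := orderOf_dvd_of_pow_eq_one h
  rw [Root.ord] at h1
  have h2 := ZMod.val_lt k
  have h3 : k.val = 0 := Nat.eq_zero_of_dvd_of_lt h1 h2
  exact (ZMod.val_eq_zero k).1 h3

theorem mu_neg (k : ZMod ℓ) : (mu (-k) : F) * mu k = 1 := by
  rw [← mu_add, neg_add_cancel, mu_zero]

theorem mu_ne_zero (k : ZMod ℓ) : (mu k : F) ≠ 0 := by
  intro h
  have := mu_neg (F := F) k
  rw [h, mul_zero] at this
  exact zero_ne_one this

end mu

/-- the maps `x ↦ mu k * x + b` -/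
@[ext]
structure Aff (ℓ : ℕ) (F : Type) where
  b : F
  k : ZMod ℓ

section aff

variable {ℓ : ℕ} [Fact ℓ.Prime] {F : Type} [Field F] [Root ℓ F]

instance : Mul (Aff ℓ F) := ⟨fun g h => ⟨g.b + mu g.k * h.b, g.k + h.k⟩⟩

instance : One (Aff ℓ F) := ⟨⟨0, 0⟩⟩

instance : Inv (Aff ℓ F) := ⟨fun g => ⟨-(mu (-g.k) * g.b), -g.k⟩⟩

theorem Aff.mul_def (g h : Aff ℓ F) : g * h = ⟨g.b + mu g.k * h.b, g.k + h.k⟩ := rfl

theorem Aff.one_def : (1 : Aff ℓ F) = ⟨0, 0⟩ := rfl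

theorem Aff.inv_def (g : Aff ℓ F) : g⁻¹ = ⟨-(mu (-g.k) * g.b), -g.k⟩ := rfl

instance : Group (Aff ℓ F) :=
  Group.ofLeftAxioms
    (by
      intro a b c
      simp only [Aff.mul_def, mu_add]
      ext
      · simp only
        ring
      · simp only [add_assoc])
    (by
      intro a
      simp only [Aff.mul_def, Aff.one_def, mu_zero]
      ext <;> simp)
    (by
      intro a
      simp only [Aff.mul_def, Aff.one_def, Aff.inv_def]
      ext <;> simp)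

instance : MulAction (Aff ℓ F) F where
  smul g x := mu g.k * x + g.b
  one_smul x := by
    change mu (0 : ZMod ℓ) * x + 0 = x
    rw [mu_zero, one_mul, add_zero]
  mul_smul g h x := by
    change mu (g.k + h.k) * x + (g.b + mu g.k * h.b) = mu g.k * (mu h.k * x + h.b) + g.b
    rw [mu_add]
    ring

theorem Aff.smul_def (g : Aff ℓ F) (x : F) : g • x = mu g.k * x + g.b := rfl

instance : Sgn ℓ (Aff ℓ F) where
  sg g := g.k
  sg_mul _ _ := rfl

theorem Aff.sg_def (g : Aff ℓ F) : (Sgn.sg g : ZMod ℓ) = g.k := rfl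

variable [Fintype F] [DecidableEq F]

/-- the group -/
abbrev GA (ℓ : ℕ) (F : Type) : Type := Gm ℓ (Aff ℓ F) F

/-- the first noncentral element -/
def c0 : GA ℓ F := ⟨Pi.single 0 1, 0, 0, 1⟩

/-- the second noncentral element -/
def d0 (τ : F) : GA ℓ F := ⟨0, Pi.single τ 1, 0, 1⟩

omit [Fintype F] [DecidableEq F] in
/-- the translation by one -/
def s0 : GA ℓ F := ⟨0, 0, 0, ⟨1, 0⟩⟩

/-- an element of sign `a` -/
def t0 (a : ZMod ℓ) : GA ℓ F := ⟨0, 0, 0, ⟨0, a⟩⟩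

omit [DecidableEq F] in
theorem aff_comm (g : Aff ℓ F) (β : F) :
    g * ⟨β, 0⟩ * g⁻¹ * (⟨β, 0⟩ : Aff ℓ F)⁻¹ = ⟨(mu g.k - 1) * β, 0⟩ := by
  have h := mu_neg (F := F) g.k
  simp only [Aff.mul_def, Aff.inv_def]
  ext
  · simp only [mu_add, mu_zero, neg_zero]
    linear_combination (-(g.b) - β) * h
  · simp

omit [DecidableEq F] in
theorem itc_g (x : ℕ → GA ℓ F) (N : ℕ) :
    (itc s0 x N).g = ⟨∏ i ∈ Finset.range N, (mu (eps (x i)) - 1), 0⟩ := by
  induction N with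
  | zero => rfl
  | succ N ih =>
    have h : (itc s0 x (N + 1)).g
        = (x N).g * (itc s0 x N).g * (x N).g⁻¹ * (itc s0 x N).g⁻¹ := rfl
    rw [h, ih, aff_comm, Finset.prod_range_succ, mul_comm]
    rfl

theorem comm_c0 (v : F → ZMod ℓ) (m : ZMod ℓ) :
    c0 * (⟨0, v, m, 1⟩ : GA ℓ F) * c0⁻¹ * (⟨0, v, m, 1⟩ : GA ℓ F)⁻¹ = chi (v 0) := by
  simp only [c0, chi, Gm.mul_def, Gm.inv_def]
  ext i
  · simp
  · simp
  · simp [Pi.single_apply]
  · simp
  · simp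

theorem conj_d0 (τ : F) (w : GA ℓ F) : ∃ m : ZMod ℓ, w * d0 τ * w⁻¹
    = (⟨0, fun i => if w.g • τ = i then 1 else 0, m, 1⟩ : GA ℓ F) := by
  refine ⟨(w * d0 τ * w⁻¹).m, ?_⟩
  refine Gm.ext ?_ ?_ rfl ?_
  · funext i
    simp [Gm.mul_def, Gm.inv_def, d0]
  · funext i
    have h5 : (w * d0 τ * w⁻¹).v i
        = w.v i + (Pi.single τ 1 : F → ZMod ℓ) (w.g⁻¹ • i) + -w.v (w.g • (w.g * 1)⁻¹ • i) := rfl
    rw [h5, mul_one, smul_inv_smul, Pi.single_apply]
    change _ = (if w.g • τ = i then (1 : ZMod ℓ) else 0)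
    by_cases hc : w.g • τ = i
    · rw [if_pos (by rw [← hc, inv_smul_smul]), if_pos hc]
      ring
    · rw [if_neg, if_neg hc]
      · ring
      · intro h
        apply hc
        rw [← h, smul_inv_smul]
  · simp [Gm.mul_def, Gm.inv_def, d0]

theorem wf_val (τ : F) (x : ℕ → GA ℓ F) (N : ℕ) :
    wf c0 (d0 τ) s0 x N =
      chi (if τ + ∏ i ∈ Finset.range N, (mu (eps (x i)) - 1) = 0 then 1 else 0) := by
  unfold wf
  obtain ⟨m, hm⟩ := conj_d0 τ (itc s0 x N)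
  rw [hm, comm_c0, itc_g]
  simp only [Aff.smul_def, mu_zero, one_mul]

/-- the number of sign patterns is not divisible by `ℓ` for some position -/
theorem exists_tau (N : ℕ) : ∃ τ : F,
    ∑ e : Fin N → ZMod ℓ, (if τ + ∏ i, ((mu (e i) : F) - 1) = 0 then (1 : ZMod ℓ) else 0) ≠ 0 := by
  by_contra hcon
  push Not at hcon
  have h1 : ∑ τ ∈ Finset.univ.erase (0 : F), ∑ e : Fin N → ZMod ℓ,
      (if τ + ∏ i, ((mu (e i) : F) - 1) = 0 then (1 : ZMod ℓ) else 0) = 0 :=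
    Finset.sum_eq_zero fun τ _ => hcon τ
  rw [Finset.sum_comm] at h1
  have h2 : ∀ e : Fin N → ZMod ℓ, ∑ τ ∈ Finset.univ.erase (0 : F),
      (if τ + ∏ i, ((mu (e i) : F) - 1) = 0 then (1 : ZMod ℓ) else 0) =
      ∏ i, (if e i = 0 then (0 : ZMod ℓ) else 1) := by
    intro e
    by_cases he : ∃ i, e i = 0
    · obtain ⟨i, hi⟩ := he
      have hz : ∏ i, (if e i = 0 then (0 : ZMod ℓ) else 1) = 0 :=
        Finset.prod_eq_zero (Finset.mem_univ i) (if_pos hi)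
      rw [hz]
      have h3 : ∏ i, ((mu (e i) : F) - 1) = 0 :=
        Finset.prod_eq_zero (Finset.mem_univ i) (by rw [hi, mu_zero, sub_self])
      refine Finset.sum_eq_zero fun τ hτ => ?_
      rw [h3, add_zero, if_neg (Finset.ne_of_mem_erase hτ)]
    · push Not at he
      rw [Finset.prod_congr rfl (fun i _ => if_neg (he i)), Finset.prod_const_one]
      have h3 : ∏ i, ((mu (e i) : F) - 1) ≠ 0 := by
        rw [Finset.prod_ne_zero_iff]
        intro i _ h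
        exact he i (mu_eq_one (sub_eq_zero.1 h))
      rw [Finset.sum_eq_single (-∏ i, ((mu (e i) : F) - 1))]
      · rw [neg_add_cancel, if_pos rfl]
      · intro τ _ hτ
        rw [if_neg]
        intro h
        exact hτ (eq_neg_of_add_eq_zero_left h)
      · intro h
        exfalso
        apply h
        rw [Finset.mem_erase]
        exact ⟨neg_ne_zero.2 h3, Finset.mem_univ _⟩
  rw [Finset.sum_congr rfl (fun e _ => h2 e)] at h1
  have h4 : ∑ e : Fin N → ZMod ℓ, ∏ i, (if e i = 0 then (0 : ZMod ℓ) else 1) =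
      ∏ _i : Fin N, ∑ a : ZMod ℓ, (if a = 0 then (0 : ZMod ℓ) else 1) := by
    rw [Finset.prod_univ_sum, Fintype.piFinset_univ]
  have h5 : ∑ a : ZMod ℓ, (if a = 0 then (0 : ZMod ℓ) else 1) = -1 := by
    have h6 : ∀ a : ZMod ℓ, (if a = 0 then (0 : ZMod ℓ) else 1) = 1 - (if a = 0 then 1 else 0) := by
      intro a
      split_ifs <;> simp
    rw [Finset.sum_congr rfl (fun a _ => h6 a), Finset.sum_sub_distrib,
      Finset.sum_ite_eq' Finset.univ (0 : ZMod ℓ) (fun _ => (1 : ZMod ℓ)),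
      if_pos (Finset.mem_univ _), Finset.sum_const, Finset.card_univ, ZMod.card, nsmul_eq_mul,
      CharP.cast_eq_zero, zero_mul, zero_sub]
  rw [h4, h5, Finset.prod_const] at h1
  have h7 : (-1 : ZMod ℓ) ^ (Finset.univ : Finset (Fin N)).card ≠ 0 :=
    pow_ne_zero _ (neg_ne_zero.2 one_ne_zero)
  exact h7 h1

/-- the word of length `N` is a mixed identity of the finite group -/
theorem word_mem {C : Type} (k : C → GG ℓ (Aff ℓ F) F) (γ δ σ : C) (τ : F) (hγ : k γ = cG c0)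
    (hδ : k δ = cG (d0 τ)) (hσ : k σ = cG s0) (N : ℕ) :
    Holds (gi k) ((wfT γ δ σ N, .one) : MTerm C × MTerm C) := by
  intro ρ
  change (wfT γ δ σ N).eval (gi k) ρ = 1
  rw [eval_wfT, hγ, hδ, hσ]
  obtain ⟨f, hf⟩ : ∃ f : ℕ → Fib ℓ (Aff ℓ F) F, ∀ i, QuotientGroup.mk (f i) = ρ i :=
    ⟨fun i => Quotient.out (ρ i), fun i => QuotientGroup.out_eq' (ρ i)⟩
  obtain rfl : (fun i => (QuotientGroup.mk (f i) : GG ℓ (Aff ℓ F) F)) = ρ := funext hf
  have h := map_wf (QuotientGroup.mk' (DZ ℓ (Aff ℓ F) F)) (⟨(c0, c0), rfl⟩ : Fib ℓ (Aff ℓ F) F)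
    (⟨(d0 τ, d0 τ), rfl⟩ : Fib ℓ (Aff ℓ F) F) (⟨(s0, s0), rfl⟩ : Fib ℓ (Aff ℓ F) F) f N
  change _ = wf (cG c0) (cG (d0 τ)) (cG s0)
    (fun i => (QuotientGroup.mk (f i) : GG ℓ (Aff ℓ F) F)) N at h
  rw [← h, QuotientGroup.mk'_apply, QuotientGroup.eq_one_iff]
  have hf1 := map_wf ((MonoidHom.fst (GA ℓ F) (GA ℓ F)).comp (Fib ℓ (Aff ℓ F) F).subtype)
    (⟨(c0, c0), rfl⟩ : Fib ℓ (Aff ℓ F) F)
    (⟨(d0 τ, d0 τ), rfl⟩ : Fib ℓ (Aff ℓ F) F) (⟨(s0, s0), rfl⟩ : Fib ℓ (Aff ℓ F) F) f N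
  have hf2 := map_wf ((MonoidHom.snd (GA ℓ F) (GA ℓ F)).comp (Fib ℓ (Aff ℓ F) F).subtype)
    (⟨(c0, c0), rfl⟩ : Fib ℓ (Aff ℓ F) F)
    (⟨(d0 τ, d0 τ), rfl⟩ : Fib ℓ (Aff ℓ F) F) (⟨(s0, s0), rfl⟩ : Fib ℓ (Aff ℓ F) F) f N
  refine ⟨if τ + ∏ i ∈ Finset.range N, (mu (eps (f i).1.1) - 1) = 0 then 1 else 0, ?_⟩
  apply Prod.ext
  · refine hf1.trans ?_
    exact wf_val τ (fun i => (f i).1.1) N
  · refine hf2.trans ?_
    refine (wf_val τ (fun i => (f i).1.2) N).trans ?_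
    have : ∀ i, eps (f i).1.2 = eps (f i).1.1 := fun i => ((f i).2).symm
    simp only [this]

/-- the word of length `N` fails in the model with parameter `N` -/
theorem word_fails {C : Type} (k : C → GG ℓ (Aff ℓ F) F) (γ δ σ : C) (τ : F) (hγ : k γ = cG c0)
    (hδ : k δ = cG (d0 τ)) (hσ : k σ = cG s0) (N : ℕ) (hN : 0 < N)
    (hτ : ∑ e : Fin N → ZMod ℓ,
      (if τ + ∏ i, ((mu (e i) : F) - 1) = 0 then (1 : ZMod ℓ) else 0) ≠ 0) :
    ¬ Holds (gi fun c => (io N (k c) : HH ℓ (Aff ℓ F) F N))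
      ((wfT γ δ σ N, .one) : MTerm C × MTerm C) := by
  intro h
  let f : ℕ → HB ℓ (Aff ℓ F) F N := fun i =>
    if hi : i < N then ⟨fun e => t0 (e ⟨i, hi⟩), 0,
      Pi.evalAddMonoidHom (fun _ : Fin N => ZMod ℓ) ⟨i, hi⟩, fun e => by
        rw [zero_add]
        rfl⟩
    else 1
  have h1 := h (fun i => QuotientGroup.mk (f i))
  change (wfT γ δ σ N).eval (gi fun c => (io N (k c) : HH ℓ (Aff ℓ F) F N)) _ = 1 at h1
  rw [eval_wfT, hγ, hδ, hσ, io_cG N hN, io_cG N hN, io_cG N hN] at h1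
  have h2 := map_wf (QuotientGroup.mk' (Z0 ℓ (Aff ℓ F) F N)) (cst N c0) (cst N (d0 τ))
    (cst N s0) f N
  change _ = wf (QuotientGroup.mk (cst N c0) : HH ℓ (Aff ℓ F) F N)
    (QuotientGroup.mk (cst N (d0 τ)))
    (QuotientGroup.mk (cst N s0)) (fun i => (QuotientGroup.mk (f i) : HH ℓ (Aff ℓ F) F N)) N at h2
  rw [← h2, QuotientGroup.mk'_apply, QuotientGroup.eq_one_iff] at h1
  obtain ⟨z, hz, hz'⟩ := h1
  apply hτ
  refine Eq.trans ?_ hz
  refine Finset.sum_congr rfl fun e _ => ?_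
  have h3 := map_wf ((Pi.evalMonoidHom (fun _ : Fin N → ZMod ℓ => GA ℓ F) e).comp
    (HB ℓ (Aff ℓ F) F N).subtype) (cst N c0) (cst N (d0 τ)) (cst N s0) f N
  have h4 : (chi (z e) : GA ℓ F) =
      chi (if τ + ∏ i ∈ Finset.range N, (mu (eps ((f i).1 e)) - 1) = 0 then 1 else 0) := by
    rw [← hz' e]
    exact h3.trans (wf_val τ (fun i => (f i).1 e) N)
  rw [chi_inj h4]
  have h5 : ∀ i : Fin N, eps ((f i).1 e) = e i := by
    intro i
    simp only [f, i.2, dif_pos]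
    rfl
  have h6 : ∏ i ∈ Finset.range N, ((mu (eps ((f i).1 e)) : F) - 1) =
      ∏ i : Fin N, ((mu (e i) : F) - 1) := by
    rw [← Fin.prod_univ_eq_prod_range (fun i => ((mu (eps ((f i).1 e)) : F) - 1)) N]
    exact Finset.prod_congr rfl (fun i _ => by rw [h5 i])
  rw [h6]

theorem itc_one {A : Type} [Group A] (x : ℕ → A) (N : ℕ) : itc 1 x N = 1 := by
  induction N with
  | zero => rfl
  | succ N ih => simp [itc, ih]

theorem wf_one {A : Type} [Group A] (x : ℕ → A) (N : ℕ) : wf 1 1 1 x N = 1 := by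
  simp [wf, itc_one]

/-- The main result: the identities of `A × GG` with constants have no basis in boundedly many
variables. -/
theorem no_rank {A : Type} [Group A] {C : Type} (k : C → A × GG ℓ (Aff ℓ F) F)
    (hk : ∀ γ, ∃ c, k c = (1, γ)) (n : ℕ) : ∃ e : MTerm C × MTerm C, Holds (gi k) e ∧
      ¬ Derives {e' : MTerm C × MTerm C | Holds (gi k) e' ∧ e'.1.bound ≤ n ∧ e'.2.bound ≤ n}
        e.1 e.2 := by
  obtain ⟨τ, hτ⟩ := exists_tau (ℓ := ℓ) (F := F) (n + 1)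
  obtain ⟨γ, hγ⟩ := hk (cG c0)
  obtain ⟨δ, hδ⟩ := hk (cG (d0 τ))
  obtain ⟨σ, hσ⟩ := hk (cG s0)
  have hγ2 : (k γ).2 = cG c0 := by rw [hγ]
  have hδ2 : (k δ).2 = cG (d0 τ) := by rw [hδ]
  have hσ2 : (k σ).2 = cG s0 := by rw [hσ]
  -- identities of the product hold in the second factor
  have hsnd : ∀ e : MTerm C × MTerm C, Holds (gi k) e → Holds (gi fun c => (k c).2) e := by
    intro e he ρ
    have h1 := MTerm.eval_hom (gi k) (gi fun c => (k c).2) (fun p => p.2) (fun _ => rfl) rfl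
      (fun _ _ => rfl) (fun _ => rfl) (fun i => ((1 : A), ρ i)) e.1
    have h2 := MTerm.eval_hom (gi k) (gi fun c => (k c).2) (fun p => p.2) (fun _ => rfl) rfl
      (fun _ _ => rfl) (fun _ => rfl) (fun i => ((1 : A), ρ i)) e.2
    rw [← h1, ← h2, he]
  refine ⟨(wfT γ δ σ (n + 1), .one), ?_, ?_⟩
  · intro ρ
    change (wfT γ δ σ (n + 1)).eval (gi k) ρ = 1
    refine Prod.ext ?_ ?_
    · have h1 := map_wf (MonoidHom.fst A (GG ℓ (Aff ℓ F) F)) (k γ) (k δ) (k σ) ρ (n + 1)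
      rw [eval_wfT]
      refine h1.trans ?_
      rw [hγ, hδ, hσ]
      exact wf_one _ _
    · have h1 := map_wf (MonoidHom.snd A (GG ℓ (Aff ℓ F) F)) (k γ) (k δ) (k σ) ρ (n + 1)
      rw [eval_wfT]
      refine h1.trans ?_
      have h2 := word_mem (fun c => (k c).2) γ δ σ τ hγ2 hδ2 hσ2 (n + 1) (fun i => (ρ i).2)
      change (wfT γ δ σ (n + 1)).eval (gi fun c => (k c).2) _ = 1 at h2
      rw [eval_wfT] at h2
      exact h2
  · intro hD
    refine word_fails (fun c => (k c).2) γ δ σ τ hγ2 hδ2 hσ2 (n + 1) (Nat.succ_pos n) hτ ?_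
    refine Derives.sound (gi fun c => (io (n + 1) (k c).2 : HH ℓ (Aff ℓ F) F (n + 1))) ?_ hD
    rintro e' ⟨he', hb1, hb2⟩
    exact holds_HH (fun c => (k c).2) (n + 1) e' (hsnd e' he') (by omega) (by omega)

end aff

end Pool.Agent.Y382.MX
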