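import Pool.Agent.Helper60.MixedProof

/-!
Mixed identities (project MX): for every prime `ℓ`, a group `Q` with a homomorphism to `ℤ/ℓ` and an
action of `Q` on a finite set, the construction of the starting file `Helper60.MixedProof`
(which is the case `ℓ = 2`, `Q = S_3`).
-/

set_option autoImplicit false

namespace Pool.Agent.Y382.MX

open Pool.Agent.Helper60.Mixed

/-- a homomorphism to `ℤ/ℓ` -/
class Sgn (ℓ : ℕ) (Q : Type) [Group Q] where
  sg : Q → ZMod ℓ
  sg_mul : ∀ g h : Q, sg (g * h) = sg g + sg h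

/-- pairs of functions on `X`, a central element, and an element of `Q` -/
@[ext]
structure Gm (ℓ : ℕ) (Q X : Type) where
  u : X → ZMod ℓ
  v : X → ZMod ℓ
  m : ZMod ℓ
  g : Q

namespace Gm

variable {ℓ : ℕ} {Q X : Type} [Group Q] [MulAction Q X] [Fintype X]

instance : Mul (Gm ℓ Q X) :=
  ⟨fun a b => ⟨fun i => a.u i + b.u (a.g⁻¹ • i), fun i => a.v i + b.v (a.g⁻¹ • i),
    a.m + b.m + ∑ i, a.u i * b.v (a.g⁻¹ • i), a.g * b.g⟩⟩

instance : One (Gm ℓ Q X) := ⟨⟨0, 0, 0, 1⟩⟩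

instance : Inv (Gm ℓ Q X) :=
  ⟨fun a => ⟨fun i => -a.u (a.g • i), fun i => -a.v (a.g • i),
    -a.m + ∑ i, a.u i * a.v i, a.g⁻¹⟩⟩

theorem mul_def (a b : Gm ℓ Q X) : a * b = ⟨fun i => a.u i + b.u (a.g⁻¹ • i),
    fun i => a.v i + b.v (a.g⁻¹ • i), a.m + b.m + ∑ i, a.u i * b.v (a.g⁻¹ • i), a.g * b.g⟩ := rfl

theorem one_def : (1 : Gm ℓ Q X) = ⟨0, 0, 0, 1⟩ := rfl

theorem inv_def (a : Gm ℓ Q X) : a⁻¹ = ⟨fun i => -a.u (a.g • i), fun i => -a.v (a.g • i),
    -a.m + ∑ i, a.u i * a.v i, a.g⁻¹⟩ := rfl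

instance : Group (Gm ℓ Q X) :=
  Group.ofLeftAxioms
    (by
      intro a b c
      simp only [mul_def]
      ext i
      · simp only [add_assoc, mul_inv_rev, mul_smul]
      · simp only [add_assoc, mul_inv_rev, mul_smul]
      · simp only [mul_inv_rev, mul_smul, add_mul, mul_add, Finset.sum_add_distrib]
        have h : ∑ i, b.u (a.g⁻¹ • i) * c.v (b.g⁻¹ • a.g⁻¹ • i) = ∑ i, b.u i * c.v (b.g⁻¹ • i) :=
          Equiv.sum_comp (MulAction.toPerm a.g⁻¹) (fun i => b.u i * c.v (b.g⁻¹ • i))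
        rw [h]
        ring
      · simp only [mul_assoc])
    (by
      intro a
      simp only [mul_def, one_def]
      ext i <;> simp)
    (by
      intro a
      simp only [mul_def, one_def, inv_def]
      ext i
      · simp only [inv_inv, neg_add_cancel, Pi.zero_apply]
      · simp only [inv_inv, neg_add_cancel, Pi.zero_apply]
      · have h : ∑ i, -a.u (a.g • i) * a.v ((a.g⁻¹)⁻¹ • i) = -∑ i, a.u i * a.v i := by
          rw [← Finset.sum_neg_distrib]
          simp only [inv_inv]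
          rw [← Equiv.sum_comp (MulAction.toPerm a.g) (fun i => -(a.u i * a.v i))]
          refine Finset.sum_congr rfl fun i _ => ?_
          simp only [MulAction.toPerm_apply]
          ring
        simp only
        rw [h]
        ring
      · simp)

variable [Sgn ℓ Q]

/-- the value of the homomorphism -/
def eps (a : Gm ℓ Q X) : ZMod ℓ := Sgn.sg a.g

theorem eps_mul (a b : Gm ℓ Q X) : eps (a * b) = eps a + eps b := Sgn.sg_mul _ _

theorem eps_one : eps (1 : Gm ℓ Q X) = 0 := by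
  have h := eps_mul (1 : Gm ℓ Q X) 1
  rw [mul_one] at h
  exact (left_eq_add.1 h)

theorem eps_inv (a : Gm ℓ Q X) : eps a⁻¹ = -eps a := by
  have h := eps_mul a⁻¹ a
  rw [inv_mul_cancel, eps_one] at h
  exact eq_neg_of_add_eq_zero_left h.symm

/-- the central elements -/
def chi (a : ZMod ℓ) : Gm ℓ Q X := ⟨0, 0, a, 1⟩

omit [Sgn ℓ Q] in
theorem chi_add (a b : ZMod ℓ) : (chi (a + b) : Gm ℓ Q X) = chi a * chi b := by
  simp only [chi, mul_def]
  ext i <;> simp

omit [Sgn ℓ Q] in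
theorem chi_zero : (chi 0 : Gm ℓ Q X) = 1 := rfl

omit [Sgn ℓ Q] [MulAction Q X] [Fintype X] in
theorem chi_inj {a b : ZMod ℓ} (h : (chi a : Gm ℓ Q X) = chi b) : a = b := congrArg Gm.m h

omit [Sgn ℓ Q] in
theorem chi_comm (a : ZMod ℓ) (x : Gm ℓ Q X) : chi a * x = x * chi a := by
  simp only [chi, mul_def]
  ext i <;> simp [add_comm]

omit [Sgn ℓ Q] in
theorem chi_inv (a : ZMod ℓ) : (chi a : Gm ℓ Q X)⁻¹ = chi (-a) := by
  rw [inv_eq_iff_mul_eq_one, ← chi_add, add_neg_cancel, chi_zero]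

theorem eps_chi (a : ZMod ℓ) : eps (chi a : Gm ℓ Q X) = 0 := eps_one (ℓ := ℓ) (Q := Q) (X := X)

/-! ### The finite group -/

/-- pairs of elements of the same sign -/
def Fib (ℓ : ℕ) (Q X : Type) [Group Q] [MulAction Q X] [Fintype X] [Sgn ℓ Q] :
    Subgroup (Gm ℓ Q X × Gm ℓ Q X) where
  carrier := {p | eps p.1 = eps p.2}
  mul_mem' := by
    intro a b ha hb
    change eps _ = eps _ at ha hb ⊢
    rw [Prod.fst_mul, Prod.snd_mul, eps_mul, eps_mul, ha, hb]
  one_mem' := rfl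
  inv_mem' := by
    intro a ha
    change eps _ = eps _ at ha ⊢
    rw [Prod.fst_inv, Prod.snd_inv, eps_inv, eps_inv, ha]

/-- the diagonal central subgroup -/
def DZ (ℓ : ℕ) (Q X : Type) [Group Q] [MulAction Q X] [Fintype X] [Sgn ℓ Q] :
    Subgroup (Fib ℓ Q X) where
  carrier := {p | ∃ a : ZMod ℓ, (p : Gm ℓ Q X × Gm ℓ Q X) = (chi a, chi a)}
  mul_mem' := by
    rintro x y ⟨a, ha⟩ ⟨b, hb⟩
    refine ⟨a + b, ?_⟩
    rw [Subgroup.coe_mul, ha, hb, Prod.mk_mul_mk, chi_add]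
  one_mem' := ⟨0, rfl⟩
  inv_mem' := by
    rintro x ⟨a, ha⟩
    refine ⟨-a, ?_⟩
    rw [Subgroup.coe_inv, ha, Prod.inv_mk, chi_inv]

instance : (DZ ℓ Q X).Normal where
  conj_mem := by
    rintro x ⟨a, ha⟩ g
    refine ⟨a, ?_⟩
    rw [Subgroup.coe_mul, Subgroup.coe_mul, Subgroup.coe_inv, ha]
    ext1
    · simp only [Prod.fst_mul, Prod.fst_inv]
      rw [← chi_comm, mul_assoc, mul_inv_cancel, mul_one]
    · simp only [Prod.snd_mul, Prod.snd_inv]
      rw [← chi_comm, mul_assoc, mul_inv_cancel, mul_one]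

/-- the finite group: pairs of elements of `Gm` of the same sign, modulo the diagonal centre -/
abbrev GG (ℓ : ℕ) (Q X : Type) [Group Q] [MulAction Q X] [Fintype X] [Sgn ℓ Q] : Type :=
  Fib ℓ Q X ⧸ DZ ℓ Q X

/-- the first coordinate of a representative -/
noncomputable def k1 (g : GG ℓ Q X) : Gm ℓ Q X := (Quotient.out g : Fib ℓ Q X).1.1

/-- the second coordinate of a representative -/
noncomputable def k2 (g : GG ℓ Q X) : Gm ℓ Q X := (Quotient.out g : Fib ℓ Q X).1.2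

theorem eps_k (g : GG ℓ Q X) : eps (k1 g) = eps (k2 g) := (Quotient.out g : Fib ℓ Q X).2

theorem mk_k (g : GG ℓ Q X) :
    (QuotientGroup.mk (⟨(k1 g, k2 g), eps_k g⟩ : Fib ℓ Q X) : GG ℓ Q X) = g :=
  QuotientGroup.out_eq' g

/-- Evaluating a term in the finite group through representatives. -/
theorem eval_GG {C : Type} (k : C → GG ℓ Q X) (t : MTerm C) (x y : ℕ → Gm ℓ Q X)
    (hxy : ∀ i, eps (x i) = eps (y i)) :
    ∃ h : eps (t.eval (gi fun c => k1 (k c)) x) = eps (t.eval (gi fun c => k2 (k c)) y),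
      t.eval (gi k) (fun i => QuotientGroup.mk (⟨(x i, y i), hxy i⟩ : Fib ℓ Q X))
        = QuotientGroup.mk (⟨(t.eval (gi fun c => k1 (k c)) x,
          t.eval (gi fun c => k2 (k c)) y), h⟩ : Fib ℓ Q X) := by
  have h1 := MTerm.eval_hom (gi (fun g : C => (Quotient.out (k g) : Fib ℓ Q X)))
    (gi fun c => k1 (k c))
    (fun p : Fib ℓ Q X => p.1.1) (fun _ => rfl) rfl (fun _ _ => rfl) (fun _ => rfl)
    (fun i => (⟨(x i, y i), hxy i⟩ : Fib ℓ Q X)) t
  have h2 := MTerm.eval_hom (gi (fun g : C => (Quotient.out (k g) : Fib ℓ Q X)))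
    (gi fun c => k2 (k c))
    (fun p : Fib ℓ Q X => p.1.2) (fun _ => rfl) rfl (fun _ _ => rfl) (fun _ => rfl)
    (fun i => (⟨(x i, y i), hxy i⟩ : Fib ℓ Q X)) t
  have h3 := MTerm.eval_hom (gi (fun g : C => (Quotient.out (k g) : Fib ℓ Q X))) (gi k)
    (fun p : Fib ℓ Q X => (QuotientGroup.mk p : GG ℓ Q X)) (fun g => QuotientGroup.out_eq' (k g))
    rfl (fun _ _ => rfl) (fun _ => rfl) (fun i => (⟨(x i, y i), hxy i⟩ : Fib ℓ Q X)) t
  set p : Fib ℓ Q X := t.eval (gi (fun g : C => (Quotient.out (k g) : Fib ℓ Q X)))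
    (fun i => (⟨(x i, y i), hxy i⟩ : Fib ℓ Q X)) with hp
  have hp2 := p.2
  refine ⟨?_, ?_⟩
  · rw [← h1, ← h2]
    exact hp2
  · rw [← h3]
    congr 1
    apply Subtype.ext
    exact Prod.ext h1 h2

/-- An identity of the finite group, read in `Gm`. -/
theorem identity_Gm {C : Type} (k : C → GG ℓ Q X) (e : MTerm C × MTerm C) (he : Holds (gi k) e)
    (x y : ℕ → Gm ℓ Q X) (hxy : ∀ i, eps (x i) = eps (y i)) :
    ∃ a : ZMod ℓ, e.2.eval (gi fun c => k1 (k c)) x = e.1.eval (gi fun c => k1 (k c)) x * chi a ∧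
      e.2.eval (gi fun c => k2 (k c)) y = e.1.eval (gi fun c => k2 (k c)) y * chi a := by
  obtain ⟨h1, h1'⟩ := eval_GG k e.1 x y hxy
  obtain ⟨h2, h2'⟩ := eval_GG k e.2 x y hxy
  have h := he (fun i => QuotientGroup.mk (⟨(x i, y i), hxy i⟩ : Fib ℓ Q X))
  rw [h1', h2', QuotientGroup.eq] at h
  obtain ⟨a, ha⟩ := h
  rw [Subgroup.coe_mul, Subgroup.coe_inv, Prod.inv_mk, Prod.mk_mul_mk, Prod.mk.injEq] at ha
  refine ⟨a, ?_, ?_⟩
  · rw [← ha.1, mul_inv_cancel_left]
  · rw [← ha.2, mul_inv_cancel_left]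

/-! ### The infinite family of models -/

variable [Fact ℓ.Prime]

/-- functions on the cube with values in `Gm` and affine sign -/
def HB (ℓ : ℕ) (Q X : Type) [Group Q] [MulAction Q X] [Fintype X] [Sgn ℓ Q] (N : ℕ) :
    Subgroup ((Fin N → ZMod ℓ) → Gm ℓ Q X) where
  carrier := {f | ∃ (c : ZMod ℓ) (l : (Fin N → ZMod ℓ) →+ ZMod ℓ), ∀ e, eps (f e) = c + l e}
  mul_mem' := by
    rintro a b ⟨c, l, h⟩ ⟨c', l', h'⟩
    refine ⟨c + c', l + l', fun e => ?_⟩
    rw [Pi.mul_apply, eps_mul, h, h', AddMonoidHom.add_apply]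
    ring
  one_mem' := ⟨0, 0, fun e => by rw [Pi.one_apply, eps_one]; simp⟩
  inv_mem' := by
    rintro a ⟨c, l, h⟩
    refine ⟨-c, -l, fun e => ?_⟩
    rw [Pi.inv_apply, eps_inv, h, AddMonoidHom.neg_apply]
    ring

/-- central functions with sum zero -/
def Z0 (ℓ : ℕ) (Q X : Type) [Group Q] [MulAction Q X] [Fintype X] [Sgn ℓ Q] [Fact ℓ.Prime]
    (N : ℕ) : Subgroup (HB ℓ Q X N) where
  carrier := {f | ∃ z : (Fin N → ZMod ℓ) → ZMod ℓ, (∑ e, z e = 0) ∧ ∀ e, f.1 e = chi (z e)}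
  mul_mem' := by
    rintro a b ⟨z, hz, h⟩ ⟨z', hz', h'⟩
    refine ⟨fun e => z e + z' e, ?_, fun e => ?_⟩
    · rw [Finset.sum_add_distrib, hz, hz', add_zero]
    · rw [Subgroup.coe_mul, Pi.mul_apply, h, h', chi_add]
  one_mem' := ⟨fun _ => 0, by simp, fun e => rfl⟩
  inv_mem' := by
    rintro a ⟨z, hz, h⟩
    exact ⟨fun e => -z e, by rw [Finset.sum_neg_distrib, hz, neg_zero],
      fun e => by rw [Subgroup.coe_inv, Pi.inv_apply, h, chi_inv]⟩

instance (N : ℕ) : (Z0 ℓ Q X N).Normal where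
  conj_mem := by
    rintro x ⟨z, hz, h⟩ g
    refine ⟨z, hz, fun e => ?_⟩
    rw [Subgroup.coe_mul, Subgroup.coe_mul, Subgroup.coe_inv, Pi.mul_apply, Pi.mul_apply,
      Pi.inv_apply, h, ← chi_comm, mul_assoc, mul_inv_cancel, mul_one]

/-- the model -/
abbrev HH (ℓ : ℕ) (Q X : Type) [Group Q] [MulAction Q X] [Fintype X] [Sgn ℓ Q] [Fact ℓ.Prime]
    (N : ℕ) : Type := HB ℓ Q X N ⧸ Z0 ℓ Q X N

/-- constant functions -/
def cst (N : ℕ) (a : Gm ℓ Q X) : HB ℓ Q X N := ⟨fun _ => a, eps a, 0, fun e => by simp⟩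

/-- the interpretation of the elements of the finite group in the model -/
noncomputable def io (N : ℕ) (g : GG ℓ Q X) : HH ℓ Q X N := QuotientGroup.mk (cst N (k1 g))

theorem eval_HH {C : Type} (k : C → GG ℓ Q X) (N : ℕ) (t : MTerm C) (f : ℕ → HB ℓ Q X N) :
    ∃ p : HB ℓ Q X N, (∀ e, p.1 e = t.eval (gi fun c => k1 (k c)) (fun i => (f i).1 e)) ∧
      t.eval (gi fun c => io N (k c)) (fun i => (QuotientGroup.mk (f i) : HH ℓ Q X N)) =
        QuotientGroup.mk p := by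
  refine ⟨t.eval (gi (fun g => cst N (k1 (k g)))) f, fun e => ?_, ?_⟩
  · exact MTerm.eval_hom (gi (fun g => cst N (k1 (k g)))) (gi fun c => k1 (k c))
      (fun p : HB ℓ Q X N => p.1 e)
      (fun _ => rfl) rfl (fun _ _ => rfl) (fun _ => rfl) f t
  · exact (MTerm.eval_hom (gi (fun g => cst N (k1 (k g)))) (gi fun c => io N (k c))
      (fun p : HB ℓ Q X N => (QuotientGroup.mk p : HH ℓ Q X N))
      (fun _ => rfl) rfl (fun _ _ => rfl) (fun _ => rfl) f t).symm

omit [Group Q] [MulAction Q X] [Fintype X] [Sgn ℓ Q] in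
theorem exists_period (n N : ℕ) (h : n < N) (l : ℕ → (Fin N → ZMod ℓ) →+ ZMod ℓ) :
    ∃ v : Fin N → ZMod ℓ, v ≠ 0 ∧ ∀ i < n, l i v = 0 := by
  classical
  have hcard : Fintype.card (Fin n → ZMod ℓ) < Fintype.card (Fin N → ZMod ℓ) := by
    simp only [Fintype.card_pi, ZMod.card, Finset.prod_const, Finset.card_univ, Fintype.card_fin]
    exact Nat.pow_lt_pow_right (Fact.out : ℓ.Prime).one_lt h
  obtain ⟨x, y, hxy, he⟩ := Fintype.exists_ne_map_eq_of_card_lt
    (fun (x : Fin N → ZMod ℓ) (i : Fin n) => l i x) hcard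
  refine ⟨x - y, sub_ne_zero.mpr hxy, fun i hi => ?_⟩
  have := congrFun he ⟨i, hi⟩
  simp only at this
  rw [map_sub, this, sub_self]

omit [Group Q] [MulAction Q X] [Fintype X] [Sgn ℓ Q] in
theorem sum_zero_of_period {N : ℕ} (v : Fin N → ZMod ℓ) (hv : v ≠ 0)
    (z : (Fin N → ZMod ℓ) → ZMod ℓ) (hz : ∀ e, z (e + v) = z e) : ∑ e, z e = 0 := by
  classical
  obtain ⟨i, hi⟩ := Function.ne_iff.1 hv
  simp only [Pi.zero_apply] at hi
  set T : ZMod ℓ → ZMod ℓ := fun k => ∑ e : Fin N → ZMod ℓ, if e i = k * v i then z e else 0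
    with hT
  have h1 : ∀ k, T (k + 1) = T k := by
    intro k
    simp only [hT]
    rw [← Equiv.sum_comp (Equiv.addRight v)]
    refine Finset.sum_congr rfl fun e _ => ?_
    simp only [Equiv.coe_addRight, Pi.add_apply, hz, add_mul, one_mul, add_left_inj]
  have h2 : ∀ n : ℕ, T (n : ZMod ℓ) = T 0 := by
    intro n
    induction n with
    | zero => simp
    | succ n ih => rw [Nat.cast_succ, h1, ih]
  have h3 : ∀ k, T k = T 0 := by
    intro k
    have := h2 k.val
    rwa [ZMod.natCast_zmod_val] at this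
  have h4 : ∑ e, z e = ∑ k, T k := by
    simp only [hT]
    rw [Finset.sum_comm]
    refine Finset.sum_congr rfl fun e _ => ?_
    rw [Finset.sum_eq_single (e i / v i)]
    · rw [if_pos]
      field_simp
    · intro k _ hk
      rw [if_neg]
      intro h
      apply hk
      rw [h]
      field_simp
    · intro h
      exact absurd (Finset.mem_univ _) h
  rw [h4, Finset.sum_congr rfl (fun k _ => h3 k), Finset.sum_const, Finset.card_univ, ZMod.card,
    nsmul_eq_mul, CharP.cast_eq_zero, zero_mul]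

/-- Mixed identities in few variables hold in the model. -/
theorem holds_HH {C : Type} (k : C → GG ℓ Q X) (N : ℕ) (e : MTerm C × MTerm C)
    (he : Holds (gi k) e) (h1 : e.1.bound < N) (h2 : e.2.bound < N) :
    Holds (gi fun c => (io N (k c) : HH ℓ Q X N)) e := by
  intro ρ
  obtain ⟨f, hf⟩ : ∃ f : ℕ → HB ℓ Q X N, ∀ i, QuotientGroup.mk (f i) = ρ i :=
    ⟨fun i => Quotient.out (ρ i), fun i => QuotientGroup.out_eq' (ρ i)⟩
  obtain rfl : (fun i => (QuotientGroup.mk (f i) : HH ℓ Q X N)) = ρ := funext hf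
  obtain ⟨p, hp, hp'⟩ := eval_HH k N e.1 f
  obtain ⟨q, hq, hq'⟩ := eval_HH k N e.2 f
  rw [hp', hq', QuotientGroup.eq]
  have hid : ∀ t, ∃ a : ZMod ℓ, q.1 t = p.1 t * chi a := by
    intro t
    obtain ⟨a, ha, -⟩ := identity_Gm k e he (fun i => (f i).1 t) (fun i => (f i).1 t)
      (fun _ => rfl)
    exact ⟨a, by rw [hp, hq, ha]⟩
  choose z hz using hid
  choose c l hcl using fun i => (f i).2
  obtain ⟨v, hv, hv'⟩ := exists_period (max e.1.bound e.2.bound) N (max_lt h1 h2) l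
  have hper : ∀ t, z (t + v) = z t := by
    intro t
    -- replace the irrelevant variables by those at `t`
    set g : ℕ → Gm ℓ Q X := fun i => if i < max e.1.bound e.2.bound then (f i).1 (t + v)
      else (f i).1 t with hg
    have hsame : ∀ i, eps (g i) = eps ((f i).1 t) := by
      intro i
      simp only [hg]
      split_ifs with hi
      · rw [hcl i (t + v), hcl i t, map_add, hv' i hi, add_zero]
      · rfl
    obtain ⟨a, ha, ha'⟩ := identity_Gm k e he g (fun i => (f i).1 t) hsame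
    obtain ⟨b, hb, hb'⟩ := identity_Gm k e he (fun i => (f i).1 t) (fun i => (f i).1 t)
      (fun _ => rfl)
    have hba : b = a := by
      have : e.1.eval (gi fun c => k2 (k c)) (fun i => (f i).1 t) * chi b
          = e.1.eval (gi fun c => k2 (k c)) (fun i => (f i).1 t) * chi a := by
        rw [← ha', ← hb']
      exact chi_inj (mul_left_cancel this)
    have e1 : e.1.eval (gi fun c => k1 (k c)) g = p.1 (t + v) := by
      rw [hp]
      apply MTerm.eval_congr
      intro i hi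
      simp only [hg]
      rw [if_pos (lt_of_lt_of_le hi (le_max_left _ _))]
    have e2 : e.2.eval (gi fun c => k1 (k c)) g = q.1 (t + v) := by
      rw [hq]
      apply MTerm.eval_congr
      intro i hi
      simp only [hg]
      rw [if_pos (lt_of_lt_of_le hi (le_max_right _ _))]
    have za : z (t + v) = a := by
      rw [e1, e2, hz] at ha
      exact chi_inj (mul_left_cancel ha)
    have zb : z t = b := by
      rw [← hp, ← hq, hz] at hb
      exact chi_inj (mul_left_cancel hb)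
    rw [za, zb, hba]
  refine ⟨z, sum_zero_of_period v hv z hper, fun t => ?_⟩
  rw [Subgroup.coe_mul, Subgroup.coe_inv, Pi.mul_apply, Pi.inv_apply, hz, inv_mul_cancel_left]

/-- the diagonal elements of the finite group -/
noncomputable def cG (a : Gm ℓ Q X) : GG ℓ Q X := QuotientGroup.mk (⟨(a, a), rfl⟩ : Fib ℓ Q X)

theorem io_cG (N : ℕ) (hN : 0 < N) (a : Gm ℓ Q X) :
    (io N (cG a) : HH ℓ Q X N) = QuotientGroup.mk (cst N a) := by
  have h := mk_k (cG a)
  unfold cG at h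
  rw [QuotientGroup.eq] at h
  obtain ⟨b, hb⟩ := h
  rw [Subgroup.coe_mul, Subgroup.coe_inv, Prod.inv_mk, Prod.mk_mul_mk, Prod.mk.injEq] at hb
  unfold io
  rw [QuotientGroup.eq]
  refine ⟨fun _ => b, ?_, fun e => hb.1⟩
  rw [Finset.sum_const, Finset.card_univ, Fintype.card_pi]
  simp only [ZMod.card, Finset.prod_const, Finset.card_univ, Fintype.card_fin]
  obtain ⟨m, rfl⟩ := Nat.exists_eq_succ_of_ne_zero hN.ne'
  rw [nsmul_eq_mul, Nat.cast_pow, CharP.cast_eq_zero, zero_pow (Nat.succ_ne_zero _), zero_mul]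

end Gm

end Pool.Agent.Y382.MX
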