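import Pool.Agent.Helper60.MixedProof

/-!
Mixed identities (project MX): statements of the blocks for nilpotent groups.
-/

set_option autoImplicit false

namespace Pool.Agent.Y382.MX

open Pool.Agent.Helper60.Mixed

/-- NRED: in a nilpotent group of class at most `c` a term with constants has the value `1` as soon
as it has the value `1` whenever all but at most `c` of the variables are replaced by `1`. -/
def S_NRED : Prop :=
  ∀ (C W : Type) [Group W] (k : C → W) (c : ℕ), (⊤ : Subgroup W).lowerCentralSeries c = ⊥ →
    ∀ (t : MTerm C) (ρ : ℕ → W),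
      (∀ I : Finset ℕ, I.card ≤ c → t.eval (gi k) (fun i => if i ∈ I then ρ i else 1) = 1) →
      t.eval (gi k) ρ = 1

/-- FIN: the mixed identities of a finite group in the variables `x_0, …, x_(n-1)` have a finite
basis. -/
def S_FIN : Prop :=
  ∀ (G : Type) [Group G] [Finite G] (n : ℕ), ∃ S : Set (MTerm G × MTerm G), S.Finite ∧
    S ⊆ mixedIdentities G ∧
    ∀ e ∈ mixedIdentities G, e.1.bound ≤ n → e.2.bound ≤ n → Derives S e.1 e.2

/-- the left normed commutator of `a 0, …, a j` -/
def lnc {W : Type} [Group W] (a : ℕ → W) : ℕ → W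
  | 0 => a 0
  | j + 1 => lnc a j * a (j + 1) * (lnc a j)⁻¹ * (a (j + 1))⁻¹

/-- LNC: a group in which all left normed commutators of `c + 1` elements are trivial is nilpotent
of class at most `c`. -/
def S_LNC : Prop :=
  ∀ (W : Type) [Group W] (c : ℕ), (∀ a : ℕ → W, lnc a c = 1) → (⊤ : Subgroup W).lowerCentralSeries c = ⊥

/-- NIL: the mixed identities of every finite nilpotent group have a finite basis. -/
def S_NIL : Prop :=
  ∀ (G : Type) [Group G] [Finite G], Group.IsNilpotent G → MixedFinitelyBased G

end Pool.Agent.Y382.MX
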