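import Pool.Agent.Y382.MX.Aff
import Pool.Agent.Y382.MX.Stm

/-!
Mixed identities (project MX): groups of order `ℓ ^ a * p ^ b` for all pairs of primes.
-/

set_option autoImplicit false

namespace Pool.Agent.Y382.MX

open Pool.Agent.Helper60.Mixed Gm

theorem Derives.mono {C : Type} {S T : Set (MTerm C × MTerm C)} (h : S ⊆ T) {s t : MTerm C}
    (hD : Derives S s t) : Derives T s t := by
  induction hD with
  | ax h1 => exact Derives.ax (h h1)
  | refl s => exact Derives.refl s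
  | symm _ ih => exact Derives.symm ih
  | trans _ _ ih1 ih2 => exact Derives.trans ih1 ih2
  | mul _ _ ih1 ih2 => exact Derives.mul ih1 ih2
  | inv _ ih => exact Derives.inv ih
  | subst σ _ ih => exact Derives.subst σ ih

/-- no basis in boundedly many variables implies no finite basis -/
theorem not_fb {G : Type} [Group G]
    (h : ∀ n : ℕ, ∃ e : MTerm G × MTerm G, Holds (gi fun g : G => g) e ∧
      ¬ Derives {e' : MTerm G × MTerm G | Holds (gi fun g : G => g) e' ∧ e'.1.bound ≤ n ∧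
        e'.2.bound ≤ n} e.1 e.2) : ¬ MixedFinitelyBased G := by
  rintro ⟨S, hfin, hS, hb⟩
  obtain ⟨n, hn⟩ : ∃ n : ℕ, ∀ e ∈ S, e.1.bound ≤ n ∧ e.2.bound ≤ n := by
    obtain ⟨n, hn⟩ := (hfin.image (fun e => max e.1.bound e.2.bound)).bddAbove
    refine ⟨n, fun e he => ?_⟩
    have := hn (Set.mem_image_of_mem _ he)
    simp only [max_le_iff] at this
    exact this
  obtain ⟨e, he, hne⟩ := h n
  apply hne
  refine Derives.mono ?_ (hb e he)
  intro e' he'
  exact ⟨hS he', hn e' he'⟩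

section card

variable {ℓ : ℕ} [Fact ℓ.Prime] {F : Type} [Field F] [Root ℓ F] [Fintype F] [DecidableEq F]

/-- the affine group as a set of pairs -/
def affEquiv (ℓ : ℕ) (F : Type) : Aff ℓ F ≃ F × ZMod ℓ where
  toFun g := (g.b, g.k)
  invFun p := ⟨p.1, p.2⟩
  left_inv _ := rfl
  right_inv _ := rfl

/-- the group `Gm` as a set of tuples -/
def gmEquiv (ℓ : ℕ) (Q X : Type) :
    Gm ℓ Q X ≃ (X → ZMod ℓ) × (X → ZMod ℓ) × ZMod ℓ × Q where
  toFun a := (a.u, a.v, a.m, a.g)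
  invFun p := ⟨p.1, p.2.1, p.2.2.1, p.2.2.2⟩
  left_inv _ := rfl
  right_inv _ := rfl

instance : Finite (Aff ℓ F) := Finite.of_equiv _ (affEquiv ℓ F).symm

instance : Finite (GA ℓ F) := Finite.of_equiv _ (gmEquiv ℓ (Aff ℓ F) F).symm

theorem card_GA : Nat.card (GA ℓ F) =
    ℓ ^ Nat.card F * (ℓ ^ Nat.card F * (ℓ * (Nat.card F * ℓ))) := by
  rw [Nat.card_congr (gmEquiv ℓ (Aff ℓ F) F), Nat.card_prod, Nat.card_prod, Nat.card_prod,
    Nat.card_congr (affEquiv ℓ F), Nat.card_prod, Nat.card_fun, Nat.card_zmod]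

theorem prime_dvd_card {p : ℕ} (hp : p.Prime) {a : ℕ} (hF : Nat.card F = p ^ a) {r : ℕ}
    (hr : r.Prime) (h : r ∣ Nat.card (GG ℓ (Aff ℓ F) F)) : r = ℓ ∨ r = p := by
  have hℓ : ℓ.Prime := Fact.out
  have h1 : r ∣ Nat.card (GA ℓ F × GA ℓ F) :=
    (h.trans (Subgroup.card_quotient_dvd_card _)).trans (Subgroup.card_subgroup_dvd_card _)
  rw [Nat.card_prod, card_GA, hF] at h1
  have e1 : r ∣ ℓ → r = ℓ := fun h => (Nat.prime_dvd_prime_iff_eq hr hℓ).1 h
  have e2 : r ∣ p → r = p := fun h => (Nat.prime_dvd_prime_iff_eq hr hp).1 h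
  have h2 : r ∣ ℓ ^ p ^ a * (ℓ ^ p ^ a * (ℓ * (p ^ a * ℓ))) := by
    rcases hr.dvd_mul.1 h1 with h | h <;> exact h
  rcases hr.dvd_mul.1 h2 with h | h
  · exact Or.inl (e1 (hr.dvd_of_dvd_pow h))
  rcases hr.dvd_mul.1 h with h | h
  · exact Or.inl (e1 (hr.dvd_of_dvd_pow h))
  rcases hr.dvd_mul.1 h with h | h
  · exact Or.inl (e1 h)
  rcases hr.dvd_mul.1 h with h | h
  · exact Or.inr (e2 (hr.dvd_of_dvd_pow h))
  · exact Or.inl (e1 h)

end card

/-- For all primes `ℓ ≠ p` there is a finite group `Γ` of order `ℓ ^ a * p ^ b` such that the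
identities with constants of `A × Γ` have no basis in boundedly many variables, for every group
`A`. -/
theorem exists_group (ℓ p : ℕ) (hℓ : ℓ.Prime) (hp : p.Prime) (hne : ℓ ≠ p) :
    ∃ (Γ : Type) (_ : Group Γ), Finite Γ ∧
      (∀ r : ℕ, r.Prime → r ∣ Nat.card Γ → r = ℓ ∨ r = p) ∧
      ∀ (A : Type) [Group A] (C : Type) (k : C → A × Γ), (∀ γ : Γ, ∃ c, k c = (1, γ)) →
        ∀ n : ℕ, ∃ e : MTerm C × MTerm C, Holds (gi k) e ∧
          ¬ Derives {e' : MTerm C × MTerm C | Holds (gi k) e' ∧ e'.1.bound ≤ n ∧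
            e'.2.bound ≤ n} e.1 e.2 := by
  classical
  have : Fact ℓ.Prime := ⟨hℓ⟩
  have : Fact p.Prime := ⟨hp⟩
  have hℓ1 : ℓ - 1 ≠ 0 := by have := hℓ.two_le; omega
  let F : Type := GaloisField p (ℓ - 1)
  have : Finite F := inferInstanceAs (Finite (GaloisField p (ℓ - 1)))
  letI : Fintype F := Fintype.ofFinite F
  have hF : Nat.card F = p ^ (ℓ - 1) := GaloisField.card p (ℓ - 1) hℓ1
  have hdvd : ℓ ∣ Nat.card Fˣ := by
    have h1 : Nat.card Fˣ = p ^ (ℓ - 1) - 1 := by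
      rw [Nat.card_units, hF]
    rw [h1, ← ZMod.natCast_eq_zero_iff, Nat.cast_sub (Nat.one_le_pow _ _ hp.pos), Nat.cast_pow,
      Nat.cast_one, sub_eq_zero]
    apply ZMod.pow_card_sub_one_eq_one
    intro h
    rw [ZMod.natCast_eq_zero_iff] at h
    exact hne ((Nat.prime_dvd_prime_iff_eq hℓ hp).1 h)
  obtain ⟨u, hu⟩ := exists_prime_orderOf_dvd_card' ℓ hdvd
  letI : Root ℓ F := ⟨(u : F), by rw [orderOf_units, hu]⟩
  refine ⟨GG ℓ (Aff ℓ F) F, inferInstance, inferInstance, ?_, ?_⟩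
  · intro r hr h
    exact prime_dvd_card hp hF hr h
  · intro A _ C k hk n
    exact no_rank k hk n

/-- The part of the result that does not need nilpotent groups. -/
theorem not_fb_prod {A Γ : Type} [Group A] [Group Γ]
    (h : ∀ (C : Type) (k : C → A × Γ), (∀ γ : Γ, ∃ c, k c = (1, γ)) →
        ∀ n : ℕ, ∃ e : MTerm C × MTerm C, Holds (gi k) e ∧
          ¬ Derives {e' : MTerm C × MTerm C | Holds (gi k) e' ∧ e'.1.bound ≤ n ∧
            e'.2.bound ≤ n} e.1 e.2) : ¬ MixedFinitelyBased (A × Γ) :=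
  not_fb (h (A × Γ) (fun g => g) (fun γ => ⟨(1, γ), rfl⟩))

/-- The sets of primes. -/
theorem primes (hN : S_NIL) (π : Set ℕ) :
    (∀ (G : Type) [Group G] [Finite G], (∀ r : ℕ, r.Prime → r ∣ Nat.card G → r ∈ π) →
      MixedFinitelyBased G) ↔ ∀ r ∈ π, ∀ s ∈ π, r.Prime → s.Prime → r = s := by
  constructor
  · intro h r hr s hs hrp hsp
    by_contra hne
    obtain ⟨Γ, _, hfin, hcard, hno⟩ := exists_group r s hrp hsp hne
    have h1 := not_fb_prod (A := PUnit) (hno PUnit)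
    apply h1
    apply h
    intro q hq hqd
    rw [Nat.card_prod, Nat.card_unique, one_mul] at hqd
    rcases hcard q hq hqd with rfl | rfl
    · exact hr
    · exact hs
  · intro h G _ _ hG
    apply hN
    by_cases h1 : Nat.card G = 1
    · haveI : Subsingleton G := (Nat.card_eq_one_iff_unique.1 h1).1
      infer_instance
    · obtain ⟨p, hp, hpd⟩ := Nat.exists_prime_and_dvd h1
      have : Fact p.Prime := ⟨hp⟩
      have h2 : Nat.card G = p ^ (Nat.card G).primeFactorsList.length :=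
        Nat.eq_prime_pow_of_unique_prime_dvd Nat.card_pos.ne'
          (fun {d} hd hdd => h d (hG d hd hdd) p (hG p hp hpd) hd hp)
      exact (IsPGroup.of_card h2).isNilpotent

end Pool.Agent.Y382.MX
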